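import Pool.Agent.PCL.Stmts

/-!
helper70, squad PCL, row CTN: the content of a finite family of integer polynomials.
-/

set_option autoImplicit false

open Polynomial

namespace Pool.Agent.PCL.H70

theorem ctn : CtnStmt := by
  intro σ _ f hf
  obtain ⟨s0, hs0⟩ := hf
  let c : ℤ := Finset.univ.gcd fun s => (f s).content
  have hdvd : ∀ s, c ∣ (f s).content := fun s => Finset.gcd_dvd (Finset.mem_univ s)
  have hc0 : c ≠ 0 := by
    intro h
    apply hs0
    rw [← Polynomial.content_eq_zero_iff]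
    have := hdvd s0
    rw [h] at this
    exact zero_dvd_iff.1 this
  have habs : ((c.natAbs : ℕ) : ℤ) ∣ c := Int.natAbs_dvd.2 dvd_rfl
  have habs' : c ∣ ((c.natAbs : ℕ) : ℤ) := Int.dvd_natAbs.2 dvd_rfl
  have hf : ∀ s, ∃ g : ℤ[X], f s = Polynomial.C ((c.natAbs : ℕ) : ℤ) * g := by
    intro s
    have h1 : Polynomial.C ((c.natAbs : ℕ) : ℤ) ∣ f s := by
      rw [Polynomial.C_dvd_iff_dvd_coeff]
      intro i
      exact (habs.trans (hdvd s)).trans (Polynomial.content_dvd_coeff i)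
    obtain ⟨g, hg⟩ := h1
    exact ⟨g, hg⟩
  choose f' hf' using hf
  refine ⟨c.natAbs, f', Int.natAbs_pos.2 hc0, hf', ?_⟩
  intro p hp
  by_contra hcon
  push Not at hcon
  have h1 : ((c.natAbs : ℕ) : ℤ) * p ∣ c := by
    apply Finset.dvd_gcd
    intro s _
    rw [Polynomial.dvd_content_iff_C_dvd, Polynomial.C_dvd_iff_dvd_coeff]
    intro i
    rw [hf' s, Polynomial.coeff_C_mul]
    exact mul_dvd_mul_left _ (hcon s i)
  have h2 : ((c.natAbs : ℕ) : ℤ) * p ∣ ((c.natAbs : ℕ) : ℤ) * 1 := by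
    rw [mul_one]
    exact h1.trans habs'
  have h3 : (p : ℤ) ∣ 1 := by
    apply Int.dvd_of_mul_dvd_mul_left _ h2
    exact Int.natCast_ne_zero.2 (Int.natAbs_ne_zero.2 hc0)
  have h4 : p ∣ 1 := by exact_mod_cast h3
  exact hp.one_lt.ne' (Nat.dvd_one.1 h4)

end Pool.Agent.PCL.H70
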